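import Pool.Agent.Y138.TB.Main

/-!
# Torsion groups with first `L²`-Betti number in `(1 - ε, 1)` and only cyclic amenable subgroups

For every `ε > 0` there is a group generated by two elements, all of whose nontrivial elements have
prime order, without proper subgroups of finite index, whose amenable subgroups are trivial or
cyclic of prime order, and whose first `L²`-Betti number lies strictly between `1 - ε` and `1`.
In particular the first `L²`-Betti numbers of such groups take infinitely many values.
-/

set_option autoImplicit false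

namespace Pool.Agent.Results.MP_42532b_al.BettiNearOne

open Pool.Agent.H919R3.Stmt (l2Betti)
open Pool.Agent.TH65.B (IsAmenable)

/-- For every `ε > 0` there is a group `G` with two generators in which every element `a ≠ 1` has
prime order, which has no proper subgroup of finite index, in which every amenable subgroup is
trivial or cyclic of prime order (in particular finite), and whose first `ℓ²`-Betti number is
positive, larger than `1 - ε` and smaller than `1 / [G : G₁]` for every subgroup `G₁` of finite
index. -/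
theorem result (ε : ℝ) (hε : 0 < ε) : ∃ (G : Type) (_ : Group G), Monoid.IsTorsion G ∧
    (∀ a : G, a ≠ 1 → (orderOf a).Prime) ∧
    (∃ S : Finset G, S.card = 2 ∧ Subgroup.closure (S : Set G) = ⊤) ∧
    (∀ G₁ : Subgroup G, G₁.FiniteIndex → G₁ = ⊤) ∧
    (∀ A : Subgroup G, IsAmenable A → Finite A ∧
      (A = ⊥ ∨ ∃ p : ℕ, p.Prime ∧ Nat.card A = p ∧ IsCyclic A)) ∧
    ∀ S : Finset G, Subgroup.closure (S : Set G) = ⊤ →
      0 < l2Betti S ∧ 1 - ε < l2Betti S ∧
        ∀ G₁ : Subgroup G, G₁.FiniteIndex → l2Betti S < 1 / (G₁.index : ℝ) := by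
  obtain ⟨n, hn⟩ := exists_pow_lt_of_lt_one hε (show (1 / 2 : ℝ) < 1 by norm_num)
  obtain ⟨G, _, htor, hpr, hS, hb, hA, hfi⟩ := Pool.Agent.Y138.TB.mainEps n
  have h1 : (1 / 2 : ℝ) ^ (n + 1) ≤ (1 / 2) ^ n :=
    pow_le_pow_of_le_one (by norm_num) (by norm_num) (Nat.le_succ n)
  have h2 : (1 / 2 : ℝ) ^ (n + 1) < 1 := pow_lt_one₀ (by norm_num) (by norm_num) (by omega)
  refine ⟨G, inferInstance, htor, hpr, hS, hfi, fun A hA' => ⟨?_, hA A hA'⟩, fun S hSg =>
    ⟨by linarith [(hb S hSg).1], by linarith [(hb S hSg).1], fun G₁ hG₁ => ?_⟩⟩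
  · rcases hA A hA' with h | ⟨p, hp, hc, -⟩
    · rw [h]
      infer_instance
    · exact Nat.finite_of_card_ne_zero (by rw [hc]; exact hp.ne_zero)
  · rw [hfi G₁ hG₁, Subgroup.index_top, Nat.cast_one, div_one]
    exact (hb S hSg).2

end Pool.Agent.Results.MP_42532b_al.BettiNearOne
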